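import Mathlib

namespace Pool.Agent.Results.MP_325f40_co.Icosahedron

/-- The 2-distance graph: distinct vertices at distance exactly `2` are adjacent. -/
def twoDist {V : Type} (G : SimpleGraph V) : SimpleGraph V where
  Adj u v := G.edist u v = 2
  symm := ⟨fun u v h => by rwa [SimpleGraph.edist_comm]⟩
  loopless := ⟨fun u h => by simp at h⟩

def nb : List ℕ := [62, 229, 395, 789, 1577, 1107, 3234, 2374, 2700, 3352, 2672, 1984]

def ico : SimpleGraph (Fin 12) where
  Adj u v := (nb.getD u 0).testBit v = true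
  symm := ⟨by decide⟩
  loopless := ⟨by decide⟩

instance : DecidableRel ico.Adj := fun _ _ => inferInstanceAs (Decidable (_ = true))

lemma edist_two {V : Type} (G : SimpleGraph V) (u v : V) :
    G.edist u v = 2 ↔ u ≠ v ∧ ¬ G.Adj u v ∧ ∃ w, G.Adj u w ∧ G.Adj w v := by
  constructor
  · intro h
    refine ⟨fun e => by simp [e] at h, fun e => ?_, ?_⟩
    · rw [SimpleGraph.edist_eq_one_iff_adj.2 e] at h; norm_num at h
    · obtain ⟨p, hp⟩ := SimpleGraph.exists_walk_of_edist_eq_coe (k := 2) h
      match p, hp with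
      | .cons h1 (.cons h2 .nil), _ => exact ⟨_, h1, h2⟩
  · rintro ⟨h0, h1, w, h2, h3⟩
    have a := SimpleGraph.edist_le (SimpleGraph.Walk.cons h2 (.cons h3 .nil))
    have b : G.edist u v ≠ 0 := by simpa using h0
    have c : G.edist u v ≠ 1 := fun e => h1 (SimpleGraph.edist_eq_one_iff_adj.1 e)
    simp only [SimpleGraph.Walk.length_cons, SimpleGraph.Walk.length_nil] at a
    generalize G.edist u v = x at *
    induction x using ENat.recTopCoe with
    | top => simp at a
    | coe x =>
      have a' : x ≤ 2 := by exact_mod_cast a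
      have b' : x ≠ 0 := by exact_mod_cast b
      have c' : x ≠ 1 := by exact_mod_cast c
      have : x = 2 := by omega
      simp [this]

def σ : Fin 12 ≃ Fin 12 := ⟨![0, 6, 8, 10, 7, 9, 2, 4, 1, 3, 5, 11], ![0, 8, 6, 9, 7, 10, 1, 4, 2, 5, 3, 11], by decide, by decide⟩

/-- The icosahedron is a `5`-regular self 2-distance graph. -/
theorem result : ∃ (k n : ℕ) (G : SimpleGraph (Fin n)), Odd k ∧ 0 < n ∧
    (∀ v, (G.neighborSet v).ncard = k) ∧ Nonempty (twoDist G ≃g G) := by
  refine ⟨5, 12, ico, by decide, by decide, fun v => ?_, ⟨⟨σ, fun {u v} => ?_⟩⟩⟩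
  · rw [← SimpleGraph.coe_neighborFinset, Set.ncard_coe_finset]
    revert v
    decide
  · show _ ↔ ico.edist u v = 2
    rw [edist_two]
    revert u v
    decide

end Pool.Agent.Results.MP_325f40_co.Icosahedron
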